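import Pool.Agent.N763.SC.Seq
import Pool.Agent.N53.CF.Stm

/-!
Campaign CF (helper53), page MP_3550b5_nt (helper832): the convergents of a continued fraction normal
number modulo `q`, in the form used for the regulators.
-/

set_option autoImplicit false

namespace Pool.Agent.N832.CFS

open Filter Topology
open Pool.Agent.N763.SC (Freq cnt)
open Pool.Agent.N53.CF (CFNormal cvg pr S_UPP S_GRP)
open Pool.Agent.W811.Stu (dig)

/-- the frequencies of the residue classes of the convergents modulo odd numbers -/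
theorem conv_freq (hU : S_UPP) (hG : S_GRP) {α : ℝ} (hα : CFNormal α) (q : ℕ) (hq : 0 < q)
    (ho : Odd q) : Freq (fun n => cvg (dig α) n) q 2 := by
  intro S δ hδ
  obtain ⟨H, i1, i2, φ, T, hcl, hT, hiff⟩ := hG q hq ho S
  filter_upwards [hU α hα H φ hcl T δ hδ, eventually_gt_atTop 0] with N hN hN0
  have hNr : (0 : ℝ) < N := by exact_mod_cast hN0
  unfold cnt
  rw [div_le_iff₀ hNr]
  have h1 : {n : ℕ | n < N ∧ cvg (dig α) n ∈
      {v : Fin 2 → ℤ | (fun l => ((v l : ℤ) : ZMod q)) ∈ S}} =
      {n : ℕ | n < N ∧ pr φ (dig α) n ∈ T} := by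
    ext n
    exact and_congr_right fun _ => hiff (dig α) n
  rw [h1]
  refine hN.trans (mul_le_mul_of_nonneg_right (add_le_add (hT.trans (le_of_eq ?_)) le_rfl) hNr.le)
  ring

end Pool.Agent.N832.CFS
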